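import Pool.Agent.H43.BZ.Stm2
import Pool.Agent.H643.BZ.Fin

/-!
# FINn: the weighted bound along classical solutions, all exponents
-/

set_option autoImplicit false

open MeasureTheory Metric Set Filter Topology
open scoped RealInnerProductSpace ENNReal

namespace Pool.Agent.H84.BZ

open Pool.Agent.H43.BZ Pool.Agent.H643.BZ

theorem kk_nonneg {d : ℕ} (γ s : ℝ) (v w : E d) : 0 ≤ kk γ s v w := by
  unfold kk
  positivity

theorem FINn (hc : S_CON) (hq : S_QLEn) (hs : S_SUPn) (hk : S_KKI) : S_FINn := by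
  intro d hd s γ K hs0 hs1 hγ hγs hK
  obtain ⟨C, hC0, hC⟩ := hq d hd s γ K hs0 hs1 hγ hγs hK
  obtain ⟨C2, hk2⟩ := hk d hd s γ hs0 hs1 hγ hγs
  refine ⟨C, hC0, ?_⟩
  intro b hb T f hT hsol
  obtain ⟨hS1, hS2, hS3⟩ := hs d T f (kk γ s) (d + 7) C2 hT (kk_nonneg γ s)
    (fun v => (hk2 v).1) (fun v => (hk2 v).2.1) hsol.nonneg hsol.cont hsol.periodic hsol.decay
  have hLam0 : ∀ t ∈ Ico 0 T, 0 ≤ Lam γ s f t := by
    intro t ht
    unfold Lam
    refine Real.iSup_nonneg fun q => integral_nonneg fun w => ?_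
    exact mul_nonneg (hsol.nonneg t ht q.1 w) (kk_nonneg γ s q.2 w)
  refine ⟨hS1, hLam0, ?_⟩
  intro N hN t ht x v
  have hsl : ∀ t ∈ Ico 0 T, ∀ x, Continuous (f t x) := by
    intro t ht x
    have h1 : ContinuousOn (fun v : E d => f t x v) univ := by
      have := hsol.cont.comp (f := fun v : E d => ((t, x, v) : ℝ × E d × E d)) (s := univ)
        (by fun_prop) (fun v _ => ⟨ht, mem_univ _⟩)
      exact this
    exact continuousOn_univ.mp h1
  have hN0 : 0 ≤ N := by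
    have h1 := hsol.nonneg 0 ⟨le_rfl, hT⟩ 0 0
    have h2 := hN 0 0
    by_contra h
    have := mul_neg_of_neg_of_pos (not_le.mp h) (P_pos d 0)
    linarith
  have key := hc d T f (fun t x v => Q γ b (f t x) v) (P d)
    (fun t => C * Lam γ s f t) N hT hN0 (P_pos d) (P_cont d)
    hsol.cont hsol.periodic ?_ ?_ (continuousOn_const.mul hS1) ?_ ?_ hN t ht x v
  · rw [intervalIntegral.integral_const_mul] at key
    exact key
  · -- decay
    intro T' hT' ε hε
    obtain ⟨C1, hC1⟩ := hsol.decay T' hT' (8 * (d + 3) + 1)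
    refine ⟨|C1| / ε, ?_⟩
    intro t ht x v hv
    have htT : t ∈ Ico 0 T := ⟨ht.1, lt_of_le_of_lt ht.2 hT'.2⟩
    have hf0 := hsol.nonneg t htT x v
    have h1 := hC1 t ht x v
    have hv0 := norm_nonneg v
    have h2 : |C1| ≤ ε * (1 + ‖v‖) := by
      rw [div_le_iff₀ hε] at hv
      nlinarith
    have h3 : (1 + ‖v‖ ^ 2) ^ (4 * (d + 3)) ≤ (1 + ‖v‖) ^ (8 * (d + 3)) := by
      have : (1 + ‖v‖) ^ (8 * (d + 3)) = ((1 + ‖v‖) ^ 2) ^ (4 * (d + 3)) := by
        rw [← pow_mul]; ring_nf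
      rw [this]
      exact pow_le_pow_left₀ (by positivity) (by nlinarith) _
    have h4 : f t x v * (1 + ‖v‖ ^ 2) ^ (4 * (d + 3)) ≤ ε := by
      have h5 : f t x v * (1 + ‖v‖ ^ 2) ^ (4 * (d + 3)) ≤ f t x v * (1 + ‖v‖) ^ (8 * (d + 3)) :=
        mul_le_mul_of_nonneg_left h3 hf0
      refine h5.trans ?_
      have h6 : (1 + ‖v‖) * (f t x v * (1 + ‖v‖) ^ (8 * (d + 3))) ≤ (1 + ‖v‖) * ε := by
        calc (1 + ‖v‖) * (f t x v * (1 + ‖v‖) ^ (8 * (d + 3)))
            = (1 + ‖v‖) ^ (8 * (d + 3) + 1) * f t x v := by ring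
          _ ≤ C1 := h1
          _ ≤ |C1| := le_abs_self _
          _ ≤ ε * (1 + ‖v‖) := h2
          _ = (1 + ‖v‖) * ε := by ring
      exact le_of_mul_le_mul_left h6 (by positivity)
    unfold P
    rw [← div_eq_mul_inv, le_div_iff₀ (by positivity)]
    exact h4
  · -- derivative
    intro t ht x v
    have h1 := (hsol.diff t ht x v).hasFDerivAt
    have h2 : HasDerivAt (fun τ : ℝ => ((t + τ, x + τ • v) : ℝ × E d)) (1, v) 0 := by
      have a1 : HasDerivAt (fun τ : ℝ => t + τ) 1 0 := (hasDerivAt_id (0 : ℝ)).const_add t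
      have a2 : HasDerivAt (fun τ : ℝ => x + τ • v) v 0 := by
        have := ((hasDerivAt_id (0 : ℝ)).smul_const v).const_add x
        rw [one_smul] at this
        exact this
      exact a1.prodMk a2
    have h3 := h1.comp_hasDerivAt_of_eq (0 : ℝ) h2 (by simp)
    rw [hsol.eqn t ht x v] at h3
    exact h3
  · -- nonnegativity
    intro t ht
    exact mul_nonneg hC0 (hLam0 t ht)
  · -- contact
    intro t ht x v A hA hfA hfe
    have htI : t ∈ Ico 0 T := ⟨ht.1.le, ht.2⟩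
    have hint : Integrable (fun w => f t x w * (‖v - w‖ ^ γ * (1 + ‖w‖) ^ (2 * s))) := by
      obtain ⟨C3, hC3⟩ := hsol.decay t htI (d + 7)
      have hg := (hk2 v).2.2
      have hf7 : Continuous (fun w : E d => f t x w * (1 + ‖w‖) ^ (d + 7)) :=
        (hsl t htI x).mul (by fun_prop)
      have heq : (fun w => f t x w * (‖v - w‖ ^ γ * (1 + ‖w‖) ^ (2 * s))) =
          fun w => (f t x w * (1 + ‖w‖) ^ (d + 7)) *
            ((‖v - w‖ ^ γ * (1 + ‖w‖) ^ (2 * s)) * ((1 + ‖w‖) ^ (d + 7))⁻¹) := by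
        funext w
        have hne : (1 + ‖w‖) ^ (d + 7) ≠ 0 := by positivity
        calc f t x w * (‖v - w‖ ^ γ * (1 + ‖w‖) ^ (2 * s))
            = f t x w * (‖v - w‖ ^ γ * (1 + ‖w‖) ^ (2 * s)) *
              ((1 + ‖w‖) ^ (d + 7) * ((1 + ‖w‖) ^ (d + 7))⁻¹) := by
                rw [mul_inv_cancel₀ hne, mul_one]
          _ = _ := by ring
      rw [heq]
      refine Integrable.mono' (hg.const_mul C3)
        (hf7.aestronglyMeasurable.mul hg.aestronglyMeasurable) (ae_of_all _ fun w => ?_)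
      have hf0 := hsol.nonneg t htI x w
      have hg0 : 0 ≤ (‖v - w‖ ^ γ * (1 + ‖w‖) ^ (2 * s)) * ((1 + ‖w‖) ^ (d + 7))⁻¹ := by
        positivity
      rw [Real.norm_of_nonneg (mul_nonneg (mul_nonneg hf0 (by positivity)) hg0)]
      refine mul_le_mul_of_nonneg_right ?_ hg0
      rw [mul_comm]
      exact hC3 t ⟨htI.1, le_rfl⟩ x w
    have h1 := hC b hb (f t x) (hsl t htI x).measurable (hsol.nonneg t htI x) A hfA v hfe
      (hsol.conv t ht x v) hint
    have h2 : ∫ w, f t x w * kk γ s v w ≤ Lam γ s f t := by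
      unfold Lam
      exact le_ciSup (hS2 t htI) (x, v)
    have h3 : 0 ≤ C * (A * P d v) := mul_nonneg hC0 (mul_nonneg hA.le (P_pos d v).le)
    calc Q γ b (f t x) v ≤ C * (A * P d v) * ∫ w, f t x w * kk γ s v w := h1
      _ ≤ C * (A * P d v) * Lam γ s f t := mul_le_mul_of_nonneg_left h2 h3
      _ = (C * Lam γ s f t) * (A * P d v) := by ring

end Pool.Agent.H84.BZ
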